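import Pool.Agent.D0H59.Hall.Forms

set_option autoImplicit false

/-!
# Hall's conjecture with the exact exponent for the values of binary forms

Let `F` and `G` be ANY binary forms with integral coefficients, of degrees `2 m` and `3 m`, `m ≥ 1`. There is a
constant `C` such that for all integers `s`, `t`, `w` and `x = w² F(s, t)`, `y = w³ G(s, t)` with `y² ≠ x³`

  `|x| ≤ C (y² - x³)²`, that is `|y² - x³| ≥ C ^ (-1/2) |x| ^ (1/2)`, and `|y| ≤ C |y² - x³|³`.

So the conjecture of Hall is true, with its original exponent `1/2`, in every such three-parameter family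
of pairs `(x, y)`; in particular (`t = w = 1`) for `x = f(s)`, `y = g(s)`, `f` and `g` any polynomials. The
exponent is the best possible one: the examples of Danilov with `|y² - x³| = O(|x| ^ (1/2))` are of this
kind, with `m = 2`, and `y² - x³ = A⁵ B` for forms `A`, `B` of degree 2, where `A(s, t) = ± 4` is solved by
the units of a real quadratic field (so `C` has to depend on the forms).

More generally, for exponents `p, q ≥ 2`, forms of degrees `q m` and `p m`, and `x = w ^ q F(s, t)`,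
`y = w ^ p G(s, t)` with `y ^ q ≠ x ^ p`, we have `|y ^ q - x ^ p| ≥ c |x ^ p| ^ (1 - 1/p - 1/q)`, the inequality
which the `abc` conjecture predicts up to `ε`, here without `ε`.

Proof. Let `D = F ^ p - G ^ q`, and let `θ` be a real zero of `D (X, 1)` of degree `n` over the rational numbers, `e`,
`a` and `j` its multiplicities as a zero of `D`, `F` and of `J = p F' G - q F G'`. The identities
`F D' - p F' D = G ^ (q-1) J` and `G D' - q G' D = F ^ (p-1) J` give `q e ≤ (p q - p - q) a + q (1 + j)`, and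
`n j ≤ deg J ≤ (p + q) m - 2`. When `s / t` is close to `θ`, the inequality follows from this and from
`|s / t - θ| ≥ c |t| ^ (-κ)`, with `κ = 1` for `n = 1`, `κ = 2` for `n = 2` (Liouville), and `κ = 5 / 2` for
`n ≥ 3` (Roth's theorem, from the starting library). The extreme case is `n = 2`.
-/

namespace Pool.Agent.Results.MP_e734ed_nt.BinaryForms

open MvPolynomial

lemma part_x (p q m : ℕ) (hp : 2 ≤ p) (hq : 2 ≤ q) (hm : 1 ≤ m) (F G : MvPolynomial (Fin 2) ℤ)
    (hF : F.IsHomogeneous (q * m)) (hG : G.IsHomogeneous (p * m)) :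
    ∃ C : ℝ, 0 < C ∧ ∀ s t w x y : ℤ, x = w ^ q * eval ![s, t] F → y = w ^ p * eval ![s, t] G →
      y ^ q ≠ x ^ p → |(x : ℝ)| ^ (p * q - p - q) ≤ C * |((y ^ q - x ^ p : ℤ) : ℝ)| ^ q := by
  obtain ⟨C, hC, h⟩ := Pool.Agent.D0H59.Hall.forms_x p q m hp hq hm F G hF hG
  refine ⟨C, hC, fun s t w x y hx hy hne => ?_⟩
  have hpq2 : p + q ≤ p * q := by nlinarith
  have e1 : y ^ q - x ^ p = -(w ^ (p * q) * ((eval ![s, t] F) ^ p - (eval ![s, t] G) ^ q)) := by
    rw [hx, hy, mul_pow, mul_pow, ← pow_mul, ← pow_mul, mul_comm q p]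
    ring
  have hw : w ≠ 0 := by
    rintro rfl
    apply hne
    rw [hx, hy, zero_pow (by omega), zero_pow (by omega), zero_mul, zero_mul, zero_pow (by omega),
      zero_pow (by omega)]
  have h1 := h s t (by
    intro h0
    rw [h0, mul_zero, neg_zero] at e1
    exact hne (sub_eq_zero.mp e1))
  have hw1 : (1 : ℝ) ≤ |(w : ℝ)| := Pool.Agent.D0H59.Hall.abs_ge_one hw
  rw [e1, hx]
  push_cast
  push_cast at h1
  rw [abs_neg, abs_mul, abs_mul, mul_pow, mul_pow, abs_pow, abs_pow, ← pow_mul, ← pow_mul]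
  calc |(w : ℝ)| ^ (q * (p * q - p - q)) * |((eval ![s, t] F : ℤ) : ℝ)| ^ (p * q - p - q) ≤
      |(w : ℝ)| ^ (p * q * q) * (C * |((eval ![s, t] F : ℤ) : ℝ) ^ p -
        ((eval ![s, t] G : ℤ) : ℝ) ^ q| ^ q) := by
        apply mul_le_mul _ h1 (by positivity) (by positivity)
        apply pow_le_pow_right₀ hw1
        calc q * (p * q - p - q) ≤ q * (p * q) := Nat.mul_le_mul_left q (by omega)
          _ = p * q * q := by ring
    _ = _ := by ring

/-- **Hall's conjecture with the exact exponent for the values of binary forms.** For `p = 3`, `q = 2` the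
conclusion is `|x| ≤ C |y² - x³|²` and `|y| ≤ C |y² - x³|³`. -/
theorem result (p q m : ℕ) (hp : 2 ≤ p) (hq : 2 ≤ q) (hm : 1 ≤ m) (F G : MvPolynomial (Fin 2) ℤ)
    (hF : F.IsHomogeneous (q * m)) (hG : G.IsHomogeneous (p * m)) :
    ∃ C : ℝ, 0 < C ∧ ∀ s t w x y : ℤ, x = w ^ q * eval ![s, t] F → y = w ^ p * eval ![s, t] G →
      y ^ q ≠ x ^ p →
        |(x : ℝ)| ^ (p * q - p - q) ≤ C * |((y ^ q - x ^ p : ℤ) : ℝ)| ^ q ∧
        |(y : ℝ)| ^ (p * q - p - q) ≤ C * |((y ^ q - x ^ p : ℤ) : ℝ)| ^ p := by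
  obtain ⟨C, hC, h⟩ := part_x p q m hp hq hm F G hF hG
  obtain ⟨C', hC', h'⟩ := part_x q p m hq hp hm G F hG hF
  refine ⟨max C C', lt_max_of_lt_left hC, fun s t w x y hx hy hne => ⟨?_, ?_⟩⟩
  · refine (h s t w x y hx hy hne).trans ?_
    gcongr
    exact le_max_left _ _
  · have h1 := h' s t w y x hy hx (Ne.symm hne)
    have e1 : q * p - q - p = p * q - p - q := by rw [mul_comm q p]; omega
    have e2 : |((x ^ p - y ^ q : ℤ) : ℝ)| = |((y ^ q - x ^ p : ℤ) : ℝ)| := by
      push_cast
      exact abs_sub_comm _ _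
    rw [e1, e2] at h1
    refine h1.trans ?_
    gcongr
    exact le_max_right _ _

end Pool.Agent.Results.MP_e734ed_nt.BinaryForms
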