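import Pool.Agent.D0H71.CM.Keep
import Pool.Agent.Results.MP_e734ed_nt.MultiplicativeValues

/-!
# The weak form of Hall's conjecture near the values of compositions of multiplicative functions

Let `F = f_1 ∘ f_2 ∘ ... ∘ f_r` be any composition of positive multiplicative functions of at most polynomial growth, which are at
most linear and injective at the large primes: for example `F m = φ (σ (φ m))`, where `φ`, `σ` are Euler's function and the sum of
the divisors. Let `G` have steps bounded below by a positive constant and growth at most `v^e`, for example `G v = α v^e`.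
If `e (1/3 - δ/6) + κ < 1`, then for all `m ≤ N` but `N / (log N)^U` the inequality `|y² - x³| > C |x| ^ (1/2 - δ)` holds for
ALL integers `x`, `y` with `y² ≠ x³` and `||x| - G (F m)| ≤ F(m)^κ`. The same is true for `||y| - G (F m)| ≤ F(m)^κ` if
`e (2/9 - δ/9) + κ < 1`.

The starting theorem `MultiplicativeValues` of this problem is the case of one function. Compositions are not multiplicative, and
their fibres are not understood. The tool is `Pool.Agent.D0H71.CM`: for almost all `m` one has `F m = k u` with `k ≤ N^η`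
and `u` squarefree, coprime to `k`, free of prime factors below `(log log N)^B`, and with very few prime factors between this
bound and a small power of `N`; this property passes from `F` to `f ∘ F`.
-/

set_option autoImplicit false

namespace Pool.Agent.Results.MP_e734ed_nt.IteratedFunctions

open Finset
open Pool.Agent.N733.TG (LM Expanding lm_totient lm_sigma expanding_pow)
open Pool.Agent.D0H71.CM (Comp av_comp ckeep_windows)
open Pool.Agent.Results.MP_e734ed_nt.MultiplicativeValues (Exc count_x count_y)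

/-- **Theorem.** Let `F` be a composition of functions of the class `LM` (positive multiplicative functions of at most polynomial
growth, with `f p ≤ M p` at the large primes, and injective there). Let `G` have steps `≥ a > 0` and growth at most `v^e`. Let
`0 ≤ δ ≤ 1/2`, `C` real, `κ ≥ 0` and `U` a natural number.
(1) If `e (1/3 - δ/6) + κ < 1`, then for all large `N`, for all `m ≤ N` but `N / (log N)^U`,
`|y² - x³| > C |x| ^ (1/2 - δ)` for all integers `x`, `y` with `y² ≠ x³` and `||x| - G (F m)| ≤ F(m)^κ`.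
(2) If `e (2/9 - δ/9) + κ < 1`, the same is true for all integers `x`, `y` with `y² ≠ x³` and `||y| - G (F m)| ≤ F(m)^κ`.
(3) Euler's function and the sum of the divisors belong to `LM`, and `α v^e` with `α > 0`, `e ≥ 1` is an example of `G`. -/
theorem result :
    (∀ F : ℕ → ℕ, Comp F → ∀ (G : ℕ → ℝ) (e : ℝ), Expanding G e → ∀ κ δ C : ℝ, 0 ≤ κ → 0 ≤ δ → δ ≤ 1 / 2 →
      (e * (1 / 3 - δ / 6) + κ < 1 → ∀ U : ℕ, ∃ N₀ : ℕ, ∀ N : ℕ, N₀ ≤ N →
        ({m : ℕ | 1 ≤ m ∧ m ≤ N ∧ ¬ ∀ x y : ℤ, y ^ 2 ≠ x ^ 3 → |(|x| : ℝ) - G (F m)| ≤ (F m : ℝ) ^ κ →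
          C * |(x : ℝ)| ^ (1 / 2 - δ) < |(y : ℝ) ^ 2 - (x : ℝ) ^ 3|}.ncard : ℝ) ≤ N / Real.log N ^ U) ∧
      (e * (2 / 9 - δ / 9) + κ < 1 → ∀ U : ℕ, ∃ N₀ : ℕ, ∀ N : ℕ, N₀ ≤ N →
        ({m : ℕ | 1 ≤ m ∧ m ≤ N ∧ ¬ ∀ x y : ℤ, y ^ 2 ≠ x ^ 3 → |(|y| : ℝ) - G (F m)| ≤ (F m : ℝ) ^ κ →
          C * |(x : ℝ)| ^ (1 / 2 - δ) < |(y : ℝ) ^ 2 - (x : ℝ) ^ 3|}.ncard : ℝ) ≤ N / Real.log N ^ U)) ∧
    (LM Nat.totient ∧ LM (fun m => ∑ d ∈ m.divisors, d)) ∧
    ∀ α e : ℝ, 0 < α → 1 ≤ e → Expanding (fun v => α * (v : ℝ) ^ e) e := by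
  refine ⟨fun F hF G e hG κ δ C hκ h0 h1 => ⟨fun h2 U => ?_, fun h2 U => ?_⟩, ⟨lm_totient, lm_sigma⟩,
    fun α d hα hd => expanding_pow hα hd⟩
  · obtain ⟨N₀, hN₀⟩ := ckeep_windows (Exc C δ) (fun e => |((e.1 : ℤ) : ℝ)|) (av_comp hF) hG (s := 1 / 3 - δ / 6) (κ := κ)
      (by linarith) hκ h2 (count_x C δ h0 h1) U
    refine ⟨N₀, fun N hN => le_trans ?_ (hN₀ N hN)⟩
    have hfin : {m : ℕ | 1 ≤ m ∧ m ≤ N ∧ ∃ t ∈ Exc C δ, |(|((t.1 : ℤ) : ℝ)|) - G (F m)| ≤ (F m : ℝ) ^ κ}.Finite :=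
      (Set.finite_Icc 1 N).subset fun m hm => ⟨hm.1, hm.2.1⟩
    refine Nat.cast_le.2 (Set.ncard_le_ncard ?_ hfin)
    rintro m ⟨h3, h4, h5⟩
    push Not at h5
    obtain ⟨x, y, hxy, hw, hcon⟩ := h5
    exact ⟨h3, h4, (x, y), ⟨hxy, hcon⟩, hw⟩
  · obtain ⟨N₀, hN₀⟩ := ckeep_windows (Exc C δ) (fun e => |((e.2 : ℤ) : ℝ)|) (av_comp hF) hG (s := 2 / 9 - δ / 9) (κ := κ)
      (by linarith) hκ h2 (count_y C δ h0 h1) U
    refine ⟨N₀, fun N hN => le_trans ?_ (hN₀ N hN)⟩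
    have hfin : {m : ℕ | 1 ≤ m ∧ m ≤ N ∧ ∃ t ∈ Exc C δ, |(|((t.2 : ℤ) : ℝ)|) - G (F m)| ≤ (F m : ℝ) ^ κ}.Finite :=
      (Set.finite_Icc 1 N).subset fun m hm => ⟨hm.1, hm.2.1⟩
    refine Nat.cast_le.2 (Set.ncard_le_ncard ?_ hfin)
    rintro m ⟨h3, h4, h5⟩
    push Not at h5
    obtain ⟨x, y, hxy, hw, hcon⟩ := h5
    exact ⟨h3, h4, (x, y), ⟨hxy, hcon⟩, hw⟩

end Pool.Agent.Results.MP_e734ed_nt.IteratedFunctions
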