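import Mathlib
import Pool.Agent.D0H59.NS.End

/-!
# MP_e734ed_nt: the inequality of Hall for all pairs with `x` or `y` close to an integer composed
of fixed primes

Let `S` be a finite set of primes.

(1) Let `0 ≤ β < 1 / 4`, `κ ≤ 1`, `0 < κ < 3 / 2 - 3 β` (for instance `κ = 3 / 4`, and `κ = 1` if `β < 1 / 6`).
There is `c > 0` with `|y ^ 2 - x ^ 3| > c |x| ^ κ` for ALL integers `x`, `y` with `y ^ 2 ≠ x ^ 3` such that
`|x|` is within `u ^ β` of a positive integer `u` composed of primes in `S`.

(2) Let `0 ≤ β < 4 / 9`. There is `c > 0` with `|y ^ 2 - x ^ 3| > c |x|` for ALL integers `x`, `y` with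
`y ^ 2 ≠ x ^ 3` such that `|y|` is within `u ^ β` of a positive integer `u` composed of primes in `S`.

In (1) `y` is arbitrary, in (2) `x` is arbitrary, and the difference `|x| - u` or `|y| - u` is arbitrary
too: in base `b`, the digits of `x` (or `y`) after the first ones are zero (or all `b - 1`), and the last
quarter (or the last `4 / 9`) of the digits is arbitrary. The exponent `1` in (1) for `β < 1 / 6`, and in
(2) for `β > 1 / 3`, is best possible: `x = w ^ 2 + 2 b`, `y = w ^ 3 + 3 b w`, where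
`y ^ 2 - x ^ 3 = - 3 b ^ 2 w ^ 2 - 8 b ^ 3`.

The proof: `y` is very close to `x ^ (3 / 2) = (u + B) ^ (3 / 2)`, and `u = r w ^ 2` with `r` in a finite set; so
`y` is close to a combination with algebraic coefficients of `w ^ 3`, `w B`, `w ^ (-1) B ^ 2`, and the
subspace theorem shows, for a sequence of counterexamples, that `y` is a fixed rational combination
of these three numbers. The coefficient of `B ^ 2 / w` is not zero, as `y ^ 2 - x ^ 3` is too small, so
`w` divides a fixed multiple of `B ^ 2`, which is impossible. In (2) `x` is a rational combination of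
`w ^ 2` and `B / w`, `u = r w ^ 3`, so `w` divides a fixed multiple of `B`; but then `y ^ 2 - x ^ 3` is not small.
-/

set_option autoImplicit false

namespace Pool.Agent.Results.MP_e734ed_nt.NearSmoothNumbers

open Pool.Agent.D0H59.NS Filter

theorem result (S : Finset ℕ) :
    (∀ β κ : ℝ, 0 ≤ β → β < 1 / 4 → 0 < κ → κ ≤ 1 → κ < 3 / 2 - 3 * β →
      ∃ c : ℝ, 0 < c ∧ ∀ u ∈ Nat.factoredNumbers S, ∀ x y : ℤ,
        abs (|(x : ℝ)| - u) ≤ (u : ℝ) ^ β → y ^ 2 ≠ x ^ 3 →
        c * |(x : ℝ)| ^ κ < |(y : ℝ) ^ 2 - (x : ℝ) ^ 3|) ∧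
    (∀ β : ℝ, 0 ≤ β → β < 4 / 9 →
      ∃ c : ℝ, 0 < c ∧ ∀ u ∈ Nat.factoredNumbers S, ∀ x y : ℤ,
        abs (|(y : ℝ)| - u) ≤ (u : ℝ) ^ β → y ^ 2 ≠ x ^ 3 →
        c * |(x : ℝ)| < |(y : ℝ) ^ 2 - (x : ℝ) ^ 3|) := by
  classical
  constructor
  · intro β κ hβ0 hβ hκ0 hκ hκ'
    by_contra hno
    push Not at hno
    have hno' := fun m : ℕ => hno (1 / ((m : ℝ) + 2)) (by positivity)
    choose u hu x y hux hne hbad using hno'
    have hu1 : ∀ m, (1 : ℝ) ≤ u m := fun m => by
      exact_mod_cast Nat.one_le_iff_ne_zero.2 (hu m).1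
    have h1 : ∀ m, (1 : ℝ) ≤ |(y m : ℝ) ^ 2 - (x m : ℝ) ^ 3| := fun m => by
      exact_mod_cast Int.one_le_abs (sub_ne_zero.2 (hne m))
    have hm2 : ∀ m : ℕ, (0 : ℝ) < (m : ℝ) + 2 := fun m => by positivity
    have h2 : ∀ m : ℕ, (m : ℝ) + 2 ≤ |(x m : ℝ)| ^ κ := by
      intro m
      have h3 := (h1 m).trans (hbad m)
      rw [one_div, inv_mul_eq_div, le_div_iff₀ (hm2 m), one_mul] at h3
      exact h3
    have hx0 : ∀ m, x m ≠ 0 := by
      intro m h0
      have h3 := h2 m
      rw [h0, Int.cast_zero, abs_zero, Real.zero_rpow hκ0.ne'] at h3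
      linarith [hm2 m]
    have hx1 : ∀ m, (1 : ℝ) ≤ |(x m : ℝ)| := fun m => by
      exact_mod_cast Int.one_le_abs (hx0 m)
    have hxκ : ∀ m, |(x m : ℝ)| ^ κ ≤ |(x m : ℝ)| := by
      intro m
      calc |(x m : ℝ)| ^ κ ≤ |(x m : ℝ)| ^ (1 : ℝ) :=
            Real.rpow_le_rpow_of_exponent_le (hx1 m) hκ
        _ = _ := Real.rpow_one _
    have hxpos : ∀ m, 0 < x m := by
      intro m
      by_contra hle
      have hneg : (x m : ℝ) < 0 := by
        have : x m < 0 := lt_of_le_of_ne (not_lt.1 hle) (hx0 m)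
        exact_mod_cast this
      have h3 : |(x m : ℝ)| = - (x m : ℝ) := abs_of_neg hneg
      have h4 : |(x m : ℝ)| ^ 3 ≤ |(y m : ℝ) ^ 2 - (x m : ℝ) ^ 3| := by
        rw [h3]
        refine le_trans ?_ (le_abs_self _)
        nlinarith [sq_nonneg (y m : ℝ)]
      have h5 : |(x m : ℝ)| ≤ |(x m : ℝ)| ^ 3 := by
        calc |(x m : ℝ)| = |(x m : ℝ)| ^ 1 := (pow_one _).symm
          _ ≤ _ := pow_le_pow_right₀ (hx1 m) (by norm_num)
      have h6 := hbad m
      have h7 := hxκ m
      have h8 : 0 < |(x m : ℝ)| ^ κ := Real.rpow_pos_of_pos (by linarith [hx1 m]) _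
      have h9 : 1 / ((m : ℝ) + 2) * |(x m : ℝ)| ^ κ ≤ 1 / 2 * |(x m : ℝ)| ^ κ := by
        apply mul_le_mul_of_nonneg_right _ h8.le
        rw [div_le_div_iff₀ (hm2 m) (by norm_num)]
        linarith [(Nat.cast_nonneg m : (0 : ℝ) ≤ m)]
      linarith
    have hxabs : ∀ m, |(x m : ℝ)| = x m := fun m => abs_of_pos (by exact_mod_cast hxpos m)
    have hx2u : ∀ m, |(x m : ℝ)| ≤ 2 * u m := by
      intro m
      have h3 := (abs_le.1 (hux m)).2
      have h4 : (u m : ℝ) ^ β ≤ u m := by
        calc (u m : ℝ) ^ β ≤ (u m : ℝ) ^ (1 : ℝ) :=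
              Real.rpow_le_rpow_of_exponent_le (hu1 m) (by linarith)
          _ = _ := Real.rpow_one _
      linarith
    exact Near.falseX (S := S) (β := β) (κ := κ) (K := 2)
      { u := u
        B := fun m => x m - u m
        Y := fun m => |y m|
        hu := hu
        hB := by
          intro m
          have h3 := hux m
          rw [hxabs m] at h3
          push_cast
          exact h3
        hY := fun m => abs_nonneg _
        hk := by
          intro m
          push_cast
          rw [sq_abs, add_sub_cancel]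
          refine (hbad m).trans ?_
          have h3 : |(x m : ℝ)| ^ κ ≤ 2 * (u m : ℝ) ^ κ := by
            calc |(x m : ℝ)| ^ κ ≤ (2 * (u m : ℝ)) ^ κ :=
                  Real.rpow_le_rpow (abs_nonneg _) (hx2u m) hκ0.le
              _ = 2 ^ κ * (u m : ℝ) ^ κ := Real.mul_rpow (by norm_num) (Nat.cast_nonneg _)
              _ ≤ 2 * (u m : ℝ) ^ κ := by
                  apply mul_le_mul_of_nonneg_right _ (Real.rpow_nonneg (Nat.cast_nonneg _) _)
                  calc (2 : ℝ) ^ κ ≤ 2 ^ (1 : ℝ) :=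
                        Real.rpow_le_rpow_of_exponent_le (by norm_num) hκ
                    _ = 2 := Real.rpow_one _
          calc 1 / ((m : ℝ) + 2) * |(x m : ℝ)| ^ κ ≤ 1 / ((m : ℝ) + 1) * (2 * (u m : ℝ) ^ κ) := by
                apply mul_le_mul _ h3 (Real.rpow_nonneg (abs_nonneg _) _) (by positivity)
                apply one_div_le_one_div_of_le (by positivity)
                linarith
            _ = _ := by ring
        ht := by
          have h3 : Tendsto (fun m : ℕ => ((m : ℝ) + 2) / 2) atTop atTop :=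
            (tendsto_atTop_add_const_right _ _ tendsto_natCast_atTop_atTop).atTop_div_const
              (by norm_num)
          refine tendsto_atTop_mono (fun m => ?_) h3
          have h4 := (h2 m).trans ((hxκ m).trans (hx2u m))
          linarith } hβ0 hβ hκ hκ' (by norm_num) (by
        intro m h0
        apply hne m
        simp only [add_sub_cancel, sq_abs] at h0
        exact h0)
  · intro β hβ0 hβ
    by_contra hno
    push Not at hno
    have hno' := fun m : ℕ => hno (1 / ((m : ℝ) + 2)) (by positivity)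
    choose u hu x y huy hne hbad using hno'
    have hu1 : ∀ m, (1 : ℝ) ≤ u m := fun m => by
      exact_mod_cast Nat.one_le_iff_ne_zero.2 (hu m).1
    have h1 : ∀ m, (1 : ℝ) ≤ |(y m : ℝ) ^ 2 - (x m : ℝ) ^ 3| := fun m => by
      exact_mod_cast Int.one_le_abs (sub_ne_zero.2 (hne m))
    have hm2 : ∀ m : ℕ, (0 : ℝ) < (m : ℝ) + 2 := fun m => by positivity
    have h2 : ∀ m : ℕ, (m : ℝ) + 2 ≤ |(x m : ℝ)| := by
      intro m
      have h3 := (h1 m).trans (hbad m)
      rw [one_div, inv_mul_eq_div, le_div_iff₀ (hm2 m), one_mul] at h3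
      exact h3
    have hx0 : ∀ m, x m ≠ 0 := by
      intro m h0
      have h3 := h2 m
      rw [h0, Int.cast_zero, abs_zero] at h3
      linarith [hm2 m]
    have hx1 : ∀ m, (1 : ℝ) ≤ |(x m : ℝ)| := fun m => by
      exact_mod_cast Int.one_le_abs (hx0 m)
    have hbad2 : ∀ m, |(y m : ℝ) ^ 2 - (x m : ℝ) ^ 3| ≤ 1 / 2 * |(x m : ℝ)| := by
      intro m
      refine (hbad m).trans (mul_le_mul_of_nonneg_right ?_ (abs_nonneg _))
      rw [div_le_div_iff₀ (hm2 m) (by norm_num)]
      linarith [(Nat.cast_nonneg m : (0 : ℝ) ≤ m)]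
    have h5 : ∀ m, |(x m : ℝ)| ≤ |(x m : ℝ)| ^ 3 := by
      intro m
      calc |(x m : ℝ)| = |(x m : ℝ)| ^ 1 := (pow_one _).symm
        _ ≤ _ := pow_le_pow_right₀ (hx1 m) (by norm_num)
    have hxpos : ∀ m, 0 < x m := by
      intro m
      by_contra hle
      have hneg : (x m : ℝ) < 0 := by
        have : x m < 0 := lt_of_le_of_ne (not_lt.1 hle) (hx0 m)
        exact_mod_cast this
      have h3 : |(x m : ℝ)| = - (x m : ℝ) := abs_of_neg hneg
      have h4 : |(x m : ℝ)| ^ 3 ≤ |(y m : ℝ) ^ 2 - (x m : ℝ) ^ 3| := by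
        rw [h3]
        refine le_trans ?_ (le_abs_self _)
        nlinarith [sq_nonneg (y m : ℝ)]
      have h6 := hbad2 m
      have h7 := h5 m
      have h8 := hx1 m
      linarith
    have hxabs : ∀ m, |(x m : ℝ)| = x m := fun m => abs_of_pos (by exact_mod_cast hxpos m)
    have hy2u : ∀ m, |(y m : ℝ)| ≤ 2 * u m := by
      intro m
      have h3 := (abs_le.1 (huy m)).2
      have h4 : (u m : ℝ) ^ β ≤ u m := by
        calc (u m : ℝ) ^ β ≤ (u m : ℝ) ^ (1 : ℝ) :=
              Real.rpow_le_rpow_of_exponent_le (hu1 m) (by linarith)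
          _ = _ := Real.rpow_one _
      linarith
    have hxu : ∀ m, (x m : ℝ) ≤ 2 * (u m : ℝ) ^ (2 / 3 : ℝ) := by
      intro m
      have h6 := (abs_le.1 (hbad2 m)).1
      have h7 := h5 m
      rw [hxabs m] at h6 h7
      have h8 : (y m : ℝ) ^ 2 ≤ (2 * u m) ^ 2 := by
        rw [← sq_abs (y m : ℝ)]
        exact pow_le_pow_left₀ (abs_nonneg _) (hy2u m) 2
      have h9 : (x m : ℝ) ^ 3 ≤ 8 * (u m : ℝ) ^ 2 := by nlinarith
      have hu0 : (0 : ℝ) ≤ u m := Nat.cast_nonneg _
      have h10 : (2 * (u m : ℝ) ^ (2 / 3 : ℝ)) ^ 3 = 8 * (u m : ℝ) ^ 2 := by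
        rw [mul_pow, ← Real.rpow_natCast ((u m : ℝ) ^ (2 / 3 : ℝ)) 3, ← Real.rpow_mul hu0,
          ← Real.rpow_natCast (u m : ℝ) 2]
        norm_num
      rw [← h10] at h9
      exact le_of_pow_le_pow_left₀ (by norm_num) (by positivity) h9
    exact Near.falseY (S := S) (β := β) (K := 2)
      { u := u
        B := fun m => |y m| - u m
        Y := fun m => x m
        hu := hu
        hB := by
          intro m
          have h3 := huy m
          push_cast
          exact h3
        hY := fun m => (hxpos m).le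
        hk := by
          intro m
          push_cast
          rw [add_sub_cancel, sq_abs, abs_sub_comm]
          refine (hbad m).trans ?_
          rw [hxabs m]
          calc 1 / ((m : ℝ) + 2) * (x m : ℝ) ≤
                1 / ((m : ℝ) + 1) * (2 * (u m : ℝ) ^ (2 / 3 : ℝ)) := by
                apply mul_le_mul _ (hxu m) (by exact_mod_cast (hxpos m).le) (by positivity)
                apply one_div_le_one_div_of_le (by positivity)
                linarith
            _ = _ := by ring
        ht := by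
          have h3 : Tendsto (fun m : ℕ => ((m : ℝ) + 2) / 2) atTop atTop :=
            (tendsto_atTop_add_const_right _ _ tendsto_natCast_atTop_atTop).atTop_div_const
              (by norm_num)
          refine tendsto_atTop_mono (fun m => ?_) h3
          have h4 : (u m : ℝ) ^ (2 / 3 : ℝ) ≤ u m := by
            calc (u m : ℝ) ^ (2 / 3 : ℝ) ≤ (u m : ℝ) ^ (1 : ℝ) :=
                  Real.rpow_le_rpow_of_exponent_le (hu1 m) (by norm_num)
              _ = _ := Real.rpow_one _
          have h6 := h2 m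
          rw [hxabs m] at h6
          have h7 := hxu m
          linarith } hβ0 hβ (by norm_num) (by
        intro m h0
        apply hne m
        simp only [add_sub_cancel, sq_abs] at h0
        exact h0.symm)

end Pool.Agent.Results.MP_e734ed_nt.NearSmoothNumbers
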