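import Mathlib
import Pool.Agent.D0H59.SU.Fin

/-!
# MP_e734ed_nt: the weak conjecture of Hall when `x` OR `y` is a short dominated sum of numbers
composed of fixed primes, the other integer being arbitrary

Let `S` be a finite set of primes, `k`, `M`, `δ > 0`. We consider the integers

  `z = a_0 u_0 + a_1 u_1 + ... + a_k u_k`,

where the `u_j` are positive integers composed of primes in `S`, the `a_j` are integers, `a_0 ≠ 0`,
`|a_0| ≤ M`, `|a_j| ≤ M u_0 ^ η` and `|a_j u_j| ≤ M u_0 ^ (1 - δ)` for `j ≥ 1` (for instance the integers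
with few non-zero digits in a given base, the second non-zero digit not being too close to the
first one; or `2 ^ r ± 3 ^ s` with `3 ^ s ≤ 2 ^ ((1 - δ) r)`). For every `ε > 0` there are `η, c > 0` with

  `|y ^ 2 - x ^ 3| > c |x| ^ (1 / 2 - ε)`

for all integers `x`, `y` with `y ^ 2 ≠ x ^ 3` such that ONE of them (it does not matter which one)
is of this form; nothing is assumed about the other one. In general
`|y ^ q - x ^ p| ≥ c max (|x| ^ p, |y| ^ q) ^ (1 - 1 / p - 1 / q - ε)`, if `x` is of this form and `y` is any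
integer. (For `HallSUnitSums` and `SparsePairs` both `x` and `y` had to be of a special form.)

The proof: if `y ^ q - x ^ p` is small, then `|y|` is very close to `|x| ^ (p / q)`, which is, up to a
negative power of `|x|`, a fixed linear combination with real algebraic coefficients of monomials
in the `a_j u_j`. We choose a basis of the space spanned by the monomials over the rational numbers
(along an ultrafilter of hypothetical counterexamples), and the subspace theorem, for this basis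
and `y`, shows that `y` itself is a fixed rational combination of the monomials. So `y` is a short sum
of `S`-units, and the theorem for two short sums applies.
-/

set_option autoImplicit false

namespace Pool.Agent.Results.MP_e734ed_nt.OneSparseSide

open Pool.Agent.D0H59.SU Finset

/-- `z` is a sum of `k + 1` terms `a j * u j`, where the prime factors of the positive integers `u j`
are in `S` and the `a j` are integers, with a dominant term: `a 0 ≠ 0`, `|a 0| ≤ M` and for `j ≠ 0`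
`|a j| ≤ M * (u 0) ^ η`, `|a j * u j| ≤ M * (u 0) ^ (1 - δ)` -/
def DominatedSum (S : Finset ℕ) (k M : ℕ) (δ η : ℝ) (z : ℤ) : Prop :=
  ∃ (u : Fin (k + 1) → ℕ) (a : Fin (k + 1) → ℤ), (∀ j, u j ∈ Nat.factoredNumbers S) ∧
    a 0 ≠ 0 ∧ |a 0| ≤ M ∧
    (∀ j, j ≠ 0 → |(a j : ℝ)| ≤ M * (u 0 : ℝ) ^ η ∧
      |(a j : ℝ) * u j| ≤ M * (u 0 : ℝ) ^ (1 - δ)) ∧
    z = ∑ j, a j * u j

theorem DominatedSum.mono {S : Finset ℕ} {k M : ℕ} {δ η η' : ℝ} {z : ℤ}
    (h : DominatedSum S k M δ η z) (hη : η ≤ η') : DominatedSum S k M δ η' z := by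
  obtain ⟨u, a, hu, ha0, haM, hj, hz⟩ := h
  refine ⟨u, a, hu, ha0, haM, fun j hj0 => ⟨(hj j hj0).1.trans ?_, (hj j hj0).2⟩, hz⟩
  have h1 : (1 : ℝ) ≤ u 0 := by exact_mod_cast Nat.one_le_iff_ne_zero.2 (hu 0).1
  exact mul_le_mul_of_nonneg_left (Real.rpow_le_rpow_of_exponent_le h1 hη) (Nat.cast_nonneg _)

/-- general exponents -/
theorem general (k M : ℕ) (S : Finset ℕ) (δ ε : ℝ) (hδ : 0 < δ) (hε : 0 < ε) (p q : ℕ)
    (hp : 1 ≤ p) (hq : 1 ≤ q) :
    ∃ η c : ℝ, 0 < η ∧ 0 < c ∧ ∀ x y : ℤ, DominatedSum S k M δ η x → y ^ q ≠ x ^ p →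
      c * (max (|(x : ℝ)| ^ p) (|(y : ℝ)| ^ q)) ^ (1 - 1 / (p : ℝ) - 1 / (q : ℝ) - ε) ≤
        |(y : ℝ) ^ q - (x : ℝ) ^ p| := by
  classical
  by_contra hno
  push Not at hno
  have hno' := fun m : ℕ => hno (1 / ((m : ℝ) + 1)) (1 / ((m : ℝ) + 1)) (by positivity)
    (by positivity)
  choose x y hd hne hbad using hno'
  unfold DominatedSum at hd
  choose u a hu ha0 haM hj hx using hd
  have hu0 : ∀ m, (1 : ℝ) ≤ u m 0 := fun m => by
    exact_mod_cast Nat.one_le_iff_ne_zero.2 (hu m 0).1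
  have hM0 : (0 : ℝ) ≤ M := Nat.cast_nonneg _
  exact Bad.false (p := p) (q := q) (k := k) (M := M) (S := S) (δ := δ) (ε := ε)
    { u := fun m j => if a m j = 0 then 1 else u m j
      a := a
      x := x
      y := y
      hu := by
        intro m j
        split_ifs with h
        · exact ⟨one_ne_zero, by simp⟩
        · exact hu m j
      ha0 := ha0
      haM := haM
      hη := by
        intro m j hj0
        rw [if_neg (ha0 m)]
        exact (hj m j hj0).1
      hδ := by
        intro m j hj0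
        rw [if_neg (ha0 m)]
        split_ifs with h
        · rw [h, Int.cast_zero, abs_zero, zero_mul]
          positivity
        · have h1 := (hj m j hj0).2
          rwa [abs_mul, Nat.abs_cast] at h1
      huu := by
        intro m j
        rw [if_neg (ha0 m)]
        have h0 : 0 < u m 0 := Nat.pos_of_ne_zero (hu m 0).1
        split_ifs with h
        · exact Nat.mul_pos (Nat.succ_pos _) h0
        · by_cases hj0 : j = 0
          · rw [hj0]
            exact Nat.le_mul_of_pos_left _ (Nat.succ_pos _)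
          · have h1 := (hj m j hj0).2
            rw [abs_mul, Nat.abs_cast] at h1
            have h2 : (1 : ℝ) ≤ |(a m j : ℝ)| := by exact_mod_cast Int.one_le_abs h
            have h3 : (u m 0 : ℝ) ^ (1 - δ) ≤ (u m 0 : ℝ) ^ (1 : ℝ) :=
              Real.rpow_le_rpow_of_exponent_le (hu0 m) (by linarith)
            rw [Real.rpow_one] at h3
            have h4 := mul_le_mul_of_nonneg_left h3 hM0
            have h5 : (0 : ℝ) ≤ u m j := Nat.cast_nonneg _
            have h6 : (u m j : ℝ) ≤ (M + 1) * u m 0 := by nlinarith [hu0 m]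
            exact_mod_cast h6
      hx := by
        intro m
        rw [hx m]
        refine Finset.sum_congr rfl fun j _ => ?_
        split_ifs with h
        · rw [h, zero_mul, zero_mul]
        · rfl
      hne := hne
      hbad := hbad } hp hq hδ hε

theorem result (k M : ℕ) (S : Finset ℕ) (δ ε : ℝ) (hδ : 0 < δ) (hε : 0 < ε) :
    -- the inequality of Hall if `x` or `y` is a dominated sum
    (∃ η c : ℝ, 0 < η ∧ 0 < c ∧ ∀ x y : ℤ,
      (DominatedSum S k M δ η x ∨ DominatedSum S k M δ η y) → y ^ 2 ≠ x ^ 3 →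
      c * |(x : ℝ)| ^ (1 / 2 - ε) < |(y : ℝ) ^ 2 - (x : ℝ) ^ 3|) ∧
    -- general exponents
    (∀ p q : ℕ, 1 ≤ p → 1 ≤ q → ∃ η c : ℝ, 0 < η ∧ 0 < c ∧ ∀ x y : ℤ,
      DominatedSum S k M δ η x → y ^ q ≠ x ^ p →
      c * (max (|(x : ℝ)| ^ p) (|(y : ℝ)| ^ q)) ^ (1 - 1 / (p : ℝ) - 1 / (q : ℝ) - ε) ≤
        |(y : ℝ) ^ q - (x : ℝ) ^ p|) := by
  refine ⟨?_, fun p q hp hq => general k M S δ ε hδ hε p q hp hq⟩
  obtain ⟨η1, c1, hη1, hc1, H1⟩ := general k M S δ (ε / 3) hδ (by positivity) 3 2 (by norm_num)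
    (by norm_num)
  obtain ⟨η2, c2, hη2, hc2, H2⟩ := general k M S δ (ε / 3) hδ (by positivity) 2 3 (by norm_num)
    (by norm_num)
  -- the common form of the two inequalities
  have common : ∀ (c : ℝ) (x y : ℤ), 0 < c → y ^ 2 ≠ x ^ 3 →
      c * (max (|(x : ℝ)| ^ 3) (|(y : ℝ)| ^ 2)) ^ (1 / 6 - ε / 3) ≤ |(y : ℝ) ^ 2 - (x : ℝ) ^ 3| →
      min (c / 2) (1 / 2) * |(x : ℝ)| ^ (1 / 2 - ε) < |(y : ℝ) ^ 2 - (x : ℝ) ^ 3| := by
    intro c x y hc hne h
    have h1 : (1 : ℝ) ≤ |(y : ℝ) ^ 2 - (x : ℝ) ^ 3| := by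
      exact_mod_cast Int.one_le_abs (sub_ne_zero.2 hne)
    have h2 : min (c / 2) (1 / 2) ≤ c / 2 := min_le_left _ _
    have h3 : min (c / 2) (1 / 2) ≤ 1 / 2 := min_le_right _ _
    have h4 : 0 < min (c / 2) (1 / 2) := lt_min (by positivity) (by norm_num)
    have hx0 : 0 ≤ |(x : ℝ)| := abs_nonneg _
    rcases le_or_gt (1 / 2 - ε) 0 with he | he
    · have h5 : |(x : ℝ)| ^ (1 / 2 - ε) ≤ 1 := by
        by_cases hx : x = 0
        · rw [hx, Int.cast_zero, abs_zero]
          rcases he.eq_or_lt with h6 | h6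
          · rw [h6, Real.rpow_zero]
          · rw [Real.zero_rpow h6.ne]
            exact zero_le_one
        · have h6 : (1 : ℝ) ≤ |(x : ℝ)| := by exact_mod_cast Int.one_le_abs hx
          exact Real.rpow_le_one_of_one_le_of_nonpos h6 he
      have h6 : 0 ≤ |(x : ℝ)| ^ (1 / 2 - ε) := Real.rpow_nonneg hx0 _
      nlinarith
    · have h5 : |(x : ℝ)| ^ (1 / 2 - ε) ≤
          (max (|(x : ℝ)| ^ 3) (|(y : ℝ)| ^ 2)) ^ (1 / 6 - ε / 3) := by
        have h6 : |(x : ℝ)| ^ (1 / 2 - ε) = (|(x : ℝ)| ^ 3) ^ (1 / 6 - ε / 3) := by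
          rw [← Real.rpow_natCast (|(x : ℝ)|) 3, ← Real.rpow_mul hx0]
          congr 1
          push_cast
          ring
        rw [h6]
        exact Real.rpow_le_rpow (by positivity) (le_max_left _ _) (by linarith)
      have h6 : 0 ≤ |(x : ℝ)| ^ (1 / 2 - ε) := Real.rpow_nonneg hx0 _
      have h7 : c * |(x : ℝ)| ^ (1 / 2 - ε) ≤ |(y : ℝ) ^ 2 - (x : ℝ) ^ 3| :=
        (mul_le_mul_of_nonneg_left h5 hc.le).trans h
      have h8 : min (c / 2) (1 / 2) * |(x : ℝ)| ^ (1 / 2 - ε) ≤
          c / 2 * |(x : ℝ)| ^ (1 / 2 - ε) := mul_le_mul_of_nonneg_right h2 h6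
      linarith
  refine ⟨min η1 η2, min (min (c1 / 2) (1 / 2)) (min (c2 / 2) (1 / 2)), lt_min hη1 hη2,
    lt_min (lt_min (by positivity) (by norm_num)) (lt_min (by positivity) (by norm_num)), ?_⟩
  intro x y hxy hne
  have hx0 : 0 ≤ |(x : ℝ)| ^ (1 / 2 - ε) := Real.rpow_nonneg (abs_nonneg _) _
  rcases hxy with hx | hy
  · have h1 := H1 x y (hx.mono (min_le_left _ _)) hne
    have h2 : 1 - 1 / ((3 : ℕ) : ℝ) - 1 / ((2 : ℕ) : ℝ) - ε / 3 = 1 / 6 - ε / 3 := by
      push_cast
      ring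
    rw [h2] at h1
    refine lt_of_le_of_lt ?_ (common c1 x y hc1 hne h1)
    exact mul_le_mul_of_nonneg_right (min_le_left _ _) hx0
  · have h1 := H2 y x (hy.mono (min_le_right _ _)) (Ne.symm hne)
    have h2 : 1 - 1 / ((2 : ℕ) : ℝ) - 1 / ((3 : ℕ) : ℝ) - ε / 3 = 1 / 6 - ε / 3 := by
      push_cast
      ring
    rw [h2, max_comm, abs_sub_comm] at h1
    refine lt_of_le_of_lt ?_ (common c2 x y hc2 hne h1)
    exact mul_le_mul_of_nonneg_right (min_le_right _ _) hx0

end Pool.Agent.Results.MP_e734ed_nt.OneSparseSide
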